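import Mathlib

/-!
Core of the renorming theorem: for a bounded biorthogonal system `(e, φ)` in a normed space the
norm `q e φ` (the support function of a set of functionals, polar to a body with uniformly large
facets and with uniformly sharp corners at the `e m`) has the following property: no finite rank
projection of `q`-norm close to `1` nearly fixes `e 0` and `e 1`.  Indeed the facets force such a
projection which nearly fixes `e n`, `e (n+1)` to nearly fix `e (n+2)` too, with an error that does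
not depend on the previous errors.
-/

open Filter Topology

namespace Pool.Agent.H.MP_317a58_an.Renorm

universe u v

section Core

variable {𝕜 : Type u} [RCLike 𝕜] {E : Type v} [NormedAddCommGroup E] [NormedSpace 𝕜 E]

/-- the exposing functional of the corner `e (n+1)` -/
noncomputable def kap (φ : ℕ → E →L[𝕜] 𝕜) (n : ℕ) : E →L[𝕜] 𝕜 := φ (n + 1) + (1 / 2 : 𝕜) • φ n

/-- the facet functionals -/
noncomputable def fac (φ : ℕ → E →L[𝕜] 𝕜) (s : 𝕜) (n : ℕ) : E →L[𝕜] 𝕜 :=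
  φ n + s • kap φ (n + 1)

/-- points in the interiors of the facets -/
noncomputable def pt (e : ℕ → E) (s : 𝕜) (n : ℕ) : E := (3 / 4 : 𝕜) • e n + (s / 2) • e (n + 1)

/-- the body with the facets -/
def D1 (φ : ℕ → E →L[𝕜] 𝕜) : Set E :=
  {x | ‖x‖ ≤ 2 ∧ (∀ n, ‖kap φ n x‖ ≤ 15 / 16) ∧ ∀ n, ‖fac φ 1 n x‖ ≤ 1 ∧ ‖fac φ (-1) n x‖ ≤ 1}

/-- the polar of `D1` and the corners -/
def G (e : ℕ → E) (φ : ℕ → E →L[𝕜] 𝕜) : Set (E →L[𝕜] 𝕜) :=
  {g | (∀ x ∈ D1 φ, ‖g x‖ ≤ 1) ∧ ∀ m, ‖g (e m)‖ ≤ 1}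

/-- the new norm -/
noncomputable def q (e : ℕ → E) (φ : ℕ → E →L[𝕜] 𝕜) (x : E) : ℝ :=
  ⨆ g : G e φ, ‖(g : E →L[𝕜] 𝕜) x‖

/-- bounded biorthogonal system -/
structure Sys (e : ℕ → E) (φ : ℕ → E →L[𝕜] 𝕜) (K : ℝ) : Prop where
  hK : 1 ≤ K
  he : ∀ n, ‖e n‖ ≤ 1
  hφ : ∀ n x, ‖φ n x‖ ≤ K * ‖x‖
  ort : ∀ i j, φ i (e j) = if i = j then 1 else 0

variable {e : ℕ → E} {φ : ℕ → E →L[𝕜] 𝕜} {K : ℝ}

lemma norm_half : ‖(1 / 2 : 𝕜)‖ = 1 / 2 := by
  simp

lemma norm_div_two {s : 𝕜} (hs : ‖s‖ = 1) : ‖s / 2‖ = 1 / 2 := by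
  rw [norm_div, hs]; simp

lemma kap_le (h : Sys e φ K) (n : ℕ) (x : E) : ‖kap φ n x‖ ≤ 3 / 2 * K * ‖x‖ := by
  have h1 : kap φ n x = φ (n + 1) x + (1 / 2 : 𝕜) * φ n x := by simp [kap]
  rw [h1]
  calc ‖φ (n + 1) x + (1 / 2 : 𝕜) * φ n x‖ ≤ ‖φ (n + 1) x‖ + ‖(1 / 2 : 𝕜) * φ n x‖ := norm_add_le _ _
    _ = ‖φ (n + 1) x‖ + 1 / 2 * ‖φ n x‖ := by rw [norm_mul, norm_half]
    _ ≤ K * ‖x‖ + 1 / 2 * (K * ‖x‖) := by
        have := h.hφ (n + 1) x
        have := h.hφ n x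
        linarith
    _ = 3 / 2 * K * ‖x‖ := by ring

lemma fac_le (h : Sys e φ K) (s : 𝕜) (hs : ‖s‖ ≤ 1) (n : ℕ) (x : E) :
    ‖fac φ s n x‖ ≤ 5 / 2 * K * ‖x‖ := by
  have h1 : fac φ s n x = φ n x + s * kap φ (n + 1) x := by simp [fac]
  rw [h1]
  have h2 := h.hφ n x
  have h3 := kap_le h (n + 1) x
  calc ‖φ n x + s * kap φ (n + 1) x‖ ≤ ‖φ n x‖ + ‖s * kap φ (n + 1) x‖ := norm_add_le _ _
    _ = ‖φ n x‖ + ‖s‖ * ‖kap φ (n + 1) x‖ := by rw [norm_mul]
    _ ≤ K * ‖x‖ + 1 * (3 / 2 * K * ‖x‖) := by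
        gcongr
    _ = 5 / 2 * K * ‖x‖ := by ring


/-! ### The seminorm -/

lemma G_bound (h : Sys e φ K) {g : E →L[𝕜] 𝕜} (hg : g ∈ G e φ) (x : E) :
    ‖g x‖ ≤ 5 / 2 * K * ‖x‖ := by
  have hK := h.hK
  rcases eq_or_ne x 0 with rfl | hx
  · simp
  have hx' : 0 < ‖x‖ := norm_pos_iff.mpr hx
  set c : ℝ := 5 / 2 * K * ‖x‖ with hc
  have hc0 : 0 < c := by positivity
  have hcn : ‖(c : 𝕜)⁻¹‖ = c⁻¹ := by
    rw [norm_inv, RCLike.norm_ofReal, abs_of_pos hc0]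
  have key : ∀ ψ : E →L[𝕜] 𝕜, ‖ψ ((c : 𝕜)⁻¹ • x)‖ = c⁻¹ * ‖ψ x‖ := by
    intro ψ
    rw [map_smul, smul_eq_mul, norm_mul, hcn]
  have hz : ((c : 𝕜)⁻¹ • x) ∈ D1 φ := by
    refine ⟨?_, ?_, ?_⟩
    · rw [norm_smul, hcn, inv_mul_le_iff₀ hc0]
      nlinarith
    · intro n
      rw [key, inv_mul_le_iff₀ hc0]
      have := kap_le h n x
      nlinarith
    · intro n
      constructor
      · rw [key, inv_mul_le_iff₀ hc0]
        have := fac_le h (1 : 𝕜) (by simp) n x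
        linarith
      · rw [key, inv_mul_le_iff₀ hc0]
        have := fac_le h (-1 : 𝕜) (by simp) n x
        linarith
  have h1 := hg.1 _ hz
  rw [key, inv_mul_le_iff₀ hc0] at h1
  linarith

lemma bdd (h : Sys e φ K) (x : E) :
    BddAbove (Set.range fun g : G e φ => ‖(g : E →L[𝕜] 𝕜) x‖) := by
  refine ⟨5 / 2 * K * ‖x‖, ?_⟩
  rintro _ ⟨g, rfl⟩
  exact G_bound h g.2 x

lemma le_q (h : Sys e φ K) {g : E →L[𝕜] 𝕜} (hg : g ∈ G e φ) (x : E) : ‖g x‖ ≤ q e φ x :=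
  le_ciSup (bdd h x) ⟨g, hg⟩

lemma zero_mem_G : (0 : E →L[𝕜] 𝕜) ∈ G e φ := by
  constructor <;> simp

instance : Nonempty (G e φ) := ⟨⟨0, zero_mem_G⟩⟩

lemma q_le {x : E} {c : ℝ} (hc : ∀ g ∈ G e φ, ‖g x‖ ≤ c) : q e φ x ≤ c :=
  ciSup_le fun g => hc g g.2

/-- the new norm as a seminorm -/
noncomputable def Q (h : Sys e φ K) : Seminorm 𝕜 E :=
  Seminorm.ofSMulLE (q e φ)
    (le_antisymm (q_le fun g _ => by simp) (by simpa using le_q h zero_mem_G 0))
    (fun x y => q_le fun g hg => by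
      rw [map_add]
      exact (norm_add_le _ _).trans (add_le_add (le_q h hg x) (le_q h hg y)))
    (fun a x => q_le fun g hg => by
      rw [map_smul, smul_eq_mul, norm_mul]
      exact mul_le_mul_of_nonneg_left (le_q h hg x) (norm_nonneg _))

@[simp] lemma Q_apply (h : Sys e φ K) (x : E) : Q h x = q e φ x := rfl

lemma q_le_norm (h : Sys e φ K) (x : E) : q e φ x ≤ 5 / 2 * K * ‖x‖ :=
  q_le fun _ hg => G_bound h hg x

lemma norm_le_q (h : Sys e φ K) (x : E) : 1 / 2 * ‖x‖ ≤ q e φ x := by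
  rcases eq_or_ne x 0 with rfl | hx
  · simpa using le_q h zero_mem_G (0 : E)
  obtain ⟨g, hg1, hg2⟩ := exists_dual_vector 𝕜 x (norm_ne_zero_iff.mpr hx)
  have hb : ∀ y, ‖((1 / 2 : 𝕜) • g) y‖ ≤ 1 / 2 * ‖y‖ := by
    intro y
    have h1 : ‖g y‖ ≤ ‖g‖ * ‖y‖ := g.le_opNorm y
    rw [hg1, one_mul] at h1
    simp only [FunLike.coe_smul, Pi.smul_apply, smul_eq_mul, norm_mul, norm_half]
    linarith
  have hmem : ((1 / 2 : 𝕜) • g) ∈ G e φ := by
    constructor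
    · intro y hy
      have := hb y
      have := hy.1
      linarith
    · intro m
      have := hb (e m)
      have := h.he m
      linarith
  have h2 := le_q h hmem x
  simp only [FunLike.coe_smul, Pi.smul_apply, smul_eq_mul, norm_mul, norm_half, hg2] at h2
  simpa using h2

/-! ### Values on the basis and on the points -/

lemma kap_e (h : Sys e φ K) (i j : ℕ) :
    kap φ i (e j) = (if i + 1 = j then 1 else 0) + (1 / 2 : 𝕜) * (if i = j then 1 else 0) := by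
  simp [kap, h.ort]

lemma kap_mem (h : Sys e φ K) (n : ℕ) : kap φ n ∈ G e φ := by
  constructor
  · intro x hx
    have := hx.2.1 n
    linarith
  · intro m
    rw [kap_e h]
    split_ifs with h1 h2 h2
    · omega
    · simp
    · simp; norm_num
    · simp

lemma fac_e (h : Sys e φ K) (s : 𝕜) (i j : ℕ) :
    fac φ s i (e j) = (if i = j then 1 else 0) +
      s * ((if i + 2 = j then 1 else 0) + (1 / 2 : 𝕜) * (if i + 1 = j then 1 else 0)) := by
  simp [fac, h.ort, kap_e h]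

lemma fac_mem (h : Sys e φ K) (s : 𝕜) (hs : s = 1 ∨ s = -1) (n : ℕ) : fac φ s n ∈ G e φ := by
  have hs1 : ‖s‖ = 1 := by rcases hs with rfl | rfl <;> simp
  constructor
  · intro x hx
    rcases hs with rfl | rfl
    · exact (hx.2.2 n).1
    · exact (hx.2.2 n).2
  · intro m
    rw [fac_e h]
    split_ifs with h1 h2 h3 h3 h2 h3 h3
    · omega
    · omega
    · omega
    · simp
    · omega
    · simp [hs1]
    · simp [hs1]; norm_num
    · simp

lemma phi_pt (h : Sys e φ K) (s : 𝕜) (j n : ℕ) :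
    φ j (pt e s n) = (3 / 4 : 𝕜) * (if j = n then 1 else 0) + s / 2 * (if j = n + 1 then 1 else 0) := by
  simp [pt, h.ort]

lemma kap_pt (h : Sys e φ K) (s : 𝕜) (hs : s = 1 ∨ s = -1) (j n : ℕ) :
    ‖kap φ j (pt e s n)‖ ≤ 7 / 8 := by
  have hs1 : ‖s‖ = 1 := by rcases hs with rfl | rfl <;> simp
  have h0 : kap φ j (pt e s n) = φ (j + 1) (pt e s n) + (1 / 2 : 𝕜) * φ j (pt e s n) := by simp [kap]
  rw [h0, phi_pt h, phi_pt h]
  by_cases h1 : j + 1 = n
  · have h2 : j ≠ n := by omega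
    have h3 : j ≠ n + 1 := by omega
    have h4 : j + 1 ≠ n + 1 := by omega
    simp only [h1, h2, h3, if_true, if_false]
    have : ‖(3 / 4 : 𝕜)‖ = 3 / 4 := by simp
    have h5 : n ≠ n + 1 := by omega
    simp only [h5, if_false, mul_one, mul_zero, add_zero, this]
    norm_num
  by_cases h2 : j = n
  · subst h2
    have h3 : j ≠ j + 1 := by omega
    have h4 : j + 1 ≠ j := by omega
    simp only [h3, h4, if_true, if_false, mul_one, mul_zero, add_zero, zero_add]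
    calc ‖s / 2 + 1 / 2 * (3 / 4 : 𝕜)‖ ≤ ‖s / 2‖ + ‖1 / 2 * (3 / 4 : 𝕜)‖ := norm_add_le _ _
      _ = 7 / 8 := by
        rw [norm_div_two hs1]; simp; norm_num
  by_cases h3 : j = n + 1
  · subst h3
    have h4 : n + 1 + 1 ≠ n := by omega
    have h5 : n + 1 ≠ n := by omega
    have h6 : n + 1 + 1 ≠ n + 1 := by omega
    simp only [h4, h5, h6, if_true, if_false, mul_one, mul_zero, add_zero, zero_add]
    rw [norm_mul, norm_div_two hs1]; simp; norm_num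
  · have h4 : j + 1 ≠ n + 1 := by omega
    simp only [h1, h2, h3, h4, if_false, mul_zero, add_zero, norm_zero]
    norm_num

lemma fac_pt_self (h : Sys e φ K) (s : 𝕜) (hs : s = 1 ∨ s = -1) (n : ℕ) :
    fac φ s n (pt e s n) = 1 := by
  have h0 : fac φ s n (pt e s n) = φ n (pt e s n) + s * (φ (n + 1 + 1) (pt e s n) +
      (1 / 2 : 𝕜) * φ (n + 1) (pt e s n)) := by
    simp [fac, kap]; ring
  rw [h0, phi_pt h, phi_pt h, phi_pt h]
  have h1 : n ≠ n + 1 := by omega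
  have h2 : n + 1 ≠ n := by omega
  have h3 : n + 1 + 1 ≠ n := by omega
  have h4 : n + 1 + 1 ≠ n + 1 := by omega
  simp only [h1, h2, h3, h4, if_true, if_false, mul_one, mul_zero, add_zero, zero_add]
  rcases hs with rfl | rfl <;> ring

lemma fac_pt (h : Sys e φ K) (s s' : 𝕜) (hs : s = 1 ∨ s = -1) (hs' : s' = 1 ∨ s' = -1) (j n : ℕ)
    (hne : ¬ (s' = s ∧ j = n)) : ‖fac φ s' j (pt e s n)‖ ≤ 7 / 8 := by
  have hs1 : ‖s‖ = 1 := by rcases hs with rfl | rfl <;> simp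
  have hs1' : ‖s'‖ = 1 := by rcases hs' with rfl | rfl <;> simp
  have h00 : fac φ s' j (pt e s n) = φ j (pt e s n) + s' * kap φ (j + 1) (pt e s n) := by
    simp [fac]
  by_cases h1 : j = n
  · subst h1
    have h0 : kap φ (j + 1) (pt e s j) = φ (j + 1 + 1) (pt e s j) +
      (1 / 2 : 𝕜) * φ (j + 1) (pt e s j) := by simp [kap]
    rw [h00, h0, phi_pt h, phi_pt h, phi_pt h]
    have h1 : j ≠ j + 1 := by omega
    have h2 : j + 1 ≠ j := by omega
    have h3 : j + 1 + 1 ≠ j := by omega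
    have h4 : j + 1 + 1 ≠ j + 1 := by omega
    simp only [h1, h2, h3, h4, if_true, if_false, mul_one, mul_zero, add_zero, zero_add]
    have hss : s' * s = -1 := by
      rcases hs with rfl | rfl <;> rcases hs' with rfl | rfl <;> simp_all
    have h5 : (3 / 4 : 𝕜) + s' * (1 / 2 * (s / 2)) = 1 / 2 := by
      have : s' * (1 / 2 * (s / 2)) = s' * s / 4 := by ring
      rw [this, hss]; norm_num
    rw [h5, norm_half]; norm_num
  by_cases h2 : j = n + 1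
  · have h0 : kap φ (j + 1) (pt e s n) = φ (j + 1 + 1) (pt e s n) +
      (1 / 2 : 𝕜) * φ (j + 1) (pt e s n) := by simp [kap]
    rw [h00, h0, phi_pt h, phi_pt h, phi_pt h]
    subst h2
    have h1 : n + 1 ≠ n := by omega
    have h2 : n + 1 + 1 ≠ n := by omega
    have h3 : n + 1 + 1 ≠ n + 1 := by omega
    have h4 : n + 1 + 1 + 1 ≠ n := by omega
    have h5 : n + 1 + 1 + 1 ≠ n + 1 := by omega
    simp only [h1, h2, h3, h4, h5, if_true, if_false, mul_one, mul_zero, add_zero, zero_add]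
    rw [norm_div_two hs1]; norm_num
  · have h3 : φ j (pt e s n) = 0 := by
      rw [phi_pt h]; simp [h1, h2]
    rw [h00, h3, zero_add, norm_mul, hs1', one_mul]
    exact kap_pt h s hs (j + 1) n

lemma pt_norm (h : Sys e φ K) (s : 𝕜) (hs : s = 1 ∨ s = -1) (n : ℕ) : ‖pt e s n‖ ≤ 5 / 4 := by
  have hs1 : ‖s‖ = 1 := by rcases hs with rfl | rfl <;> simp
  have h1 := h.he n
  have h2 := h.he (n + 1)
  calc ‖pt e s n‖ ≤ ‖(3 / 4 : 𝕜) • e n‖ + ‖(s / 2) • e (n + 1)‖ := norm_add_le _ _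
    _ = 3 / 4 * ‖e n‖ + 1 / 2 * ‖e (n + 1)‖ := by
      rw [norm_smul, norm_smul, norm_div_two hs1]; simp
    _ ≤ 5 / 4 := by linarith

/-! ### Facets -/

lemma near_val (h : Sys e φ K) {ψ : E →L[𝕜] 𝕜} (hψ : ∀ x, ‖ψ x‖ ≤ 5 / 2 * K * ‖x‖) {w u : E}
    (hw : ‖w - u‖ ≤ 1 / (80 * K)) : ‖ψ w - ψ u‖ ≤ 1 / 32 := by
  have hK := h.hK
  rw [← map_sub]
  calc ‖ψ (w - u)‖ ≤ 5 / 2 * K * ‖w - u‖ := hψ _
    _ ≤ 5 / 2 * K * (1 / (80 * K)) := by gcongr
    _ = 1 / 32 := by field_simp; norm_num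

lemma facet_near (h : Sys e φ K) (s : 𝕜) (hs : s = 1 ∨ s = -1) (n : ℕ) (w : E)
    (hw : ‖w - pt e s n‖ ≤ 1 / (80 * K)) :
    31 / 32 ≤ ‖fac φ s n w‖ ∧ ‖fac φ s n w‖ ≤ 33 / 32 ∧ q e φ w ≤ ‖fac φ s n w‖ := by
  have hK := h.hK
  have hs1 : ‖s‖ = 1 := by rcases hs with rfl | rfl <;> simp
  have hself := near_val h (fac_le h s hs1.le n) hw
  rw [fac_pt_self h s hs n] at hself
  have hup : ‖fac φ s n w‖ ≤ 33 / 32 := by
    have h1 : ‖fac φ s n w‖ ≤ ‖fac φ s n w - 1‖ + ‖(1 : 𝕜)‖ := by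
      simpa using norm_add_le (fac φ s n w - 1) (1 : 𝕜)
    rw [norm_one] at h1
    linarith
  have hlow : 31 / 32 ≤ ‖fac φ s n w‖ := by
    have h1 : ‖(1 : 𝕜)‖ ≤ ‖fac φ s n w‖ + ‖fac φ s n w - 1‖ := by
      have := norm_sub_norm_le (1 : 𝕜) (fac φ s n w)
      rw [norm_sub_rev] at this
      linarith
    rw [norm_one] at h1
    linarith
  refine ⟨hlow, hup, q_le ?_⟩
  intro g hg
  set c : ℝ := ‖fac φ s n w‖ with hc
  have hc0 : 0 < c := by linarith
  have hcn : ‖(c : 𝕜)⁻¹‖ = c⁻¹ := by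
    rw [norm_inv, RCLike.norm_ofReal, abs_of_pos hc0]
  have key : ∀ ψ : E →L[𝕜] 𝕜, ‖ψ ((c : 𝕜)⁻¹ • w)‖ = c⁻¹ * ‖ψ w‖ := by
    intro ψ
    rw [map_smul, smul_eq_mul, norm_mul, hcn]
  have hfacs : ∀ s' : 𝕜, (s' = 1 ∨ s' = -1) → ∀ j, ‖fac φ s' j w‖ ≤ c := by
    intro s' hs' j
    have hs1' : ‖s'‖ = 1 := by rcases hs' with rfl | rfl <;> simp
    by_cases hne : s' = s ∧ j = n
    · obtain ⟨rfl, rfl⟩ := hne
      exact le_of_eq hc.symm
    · have h1 := fac_pt h s s' hs hs' j n hne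
      have h2 := near_val h (fac_le h s' hs1'.le j) hw
      have h3 : ‖fac φ s' j w‖ ≤ ‖fac φ s' j w - fac φ s' j (pt e s n)‖ +
          ‖fac φ s' j (pt e s n)‖ := by
        simpa using norm_add_le (fac φ s' j w - fac φ s' j (pt e s n)) (fac φ s' j (pt e s n))
      linarith
  have hz : ((c : 𝕜)⁻¹ • w) ∈ D1 φ := by
    refine ⟨?_, ?_, ?_⟩
    · rw [norm_smul, hcn, inv_mul_le_iff₀ hc0]
      have h1 : ‖w‖ ≤ ‖w - pt e s n‖ + ‖pt e s n‖ := by
        simpa using norm_add_le (w - pt e s n) (pt e s n)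
      have h2 := pt_norm h s hs n
      have h3 : 1 / (80 * K) ≤ 1 / 80 := by
        apply one_div_le_one_div_of_le <;> linarith
      linarith
    · intro j
      rw [key, inv_mul_le_iff₀ hc0]
      have h1 := kap_pt h s hs j n
      have h2 := near_val h (ψ := kap φ j) (fun x => (kap_le h j x).trans (by
        have := norm_nonneg x
        nlinarith)) hw
      have h3 : ‖kap φ j w‖ ≤ ‖kap φ j w - kap φ j (pt e s n)‖ + ‖kap φ j (pt e s n)‖ := by
        simpa using norm_add_le (kap φ j w - kap φ j (pt e s n)) (kap φ j (pt e s n))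
      linarith
    · intro j
      constructor
      · rw [key, inv_mul_le_iff₀ hc0, mul_one]
        exact hfacs 1 (Or.inl rfl) j
      · rw [key, inv_mul_le_iff₀ hc0, mul_one]
        exact hfacs (-1) (Or.inr rfl) j
  have h1 := hg.1 _ hz
  rwa [key, inv_mul_le_iff₀ hc0, mul_one] at h1

/-- alignment of phases -/
lemma exists_phase (a b : 𝕜) : ∃ ω : 𝕜, ‖ω‖ = 1 ∧ ‖a + ω * b‖ = ‖a‖ + ‖b‖ := by
  rcases eq_or_ne b 0 with rfl | hb
  · exact ⟨1, by simp, by simp⟩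
  rcases eq_or_ne a 0 with rfl | ha
  · exact ⟨1, by simp, by simp⟩
  have ha' : (‖a‖ : 𝕜) ≠ 0 := by simpa using ha
  have hb' : (‖b‖ : 𝕜) ≠ 0 := by simpa using hb
  refine ⟨a / ‖a‖ * (‖b‖ / b), ?_, ?_⟩
  · rw [norm_mul, norm_div, norm_div, RCLike.norm_ofReal, RCLike.norm_ofReal, abs_norm, abs_norm]
    rw [div_self (norm_ne_zero_iff.mpr ha), div_self (norm_ne_zero_iff.mpr hb), one_mul]
  · have h1 : a + a / ‖a‖ * (‖b‖ / b) * b = a / ‖a‖ * ((‖a‖ + ‖b‖ : ℝ) : 𝕜) := by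
      push_cast
      field_simp
    rw [h1, norm_mul, norm_div, RCLike.norm_ofReal, RCLike.norm_ofReal, abs_norm,
      div_self (norm_ne_zero_iff.mpr ha), one_mul, abs_of_nonneg (by positivity)]

/-- A projection of norm at most `1+ε` which nearly fixes `e n` and `e (n+1)` has an adjoint
nearly fixing the facet functionals at level `n`. -/
lemma step_fac (h : Sys e φ K) (s : 𝕜) (hs : s = 1 ∨ s = -1) (P : E →L[𝕜] E)
    (hP : ∀ x, P (P x) = P x) {ε : ℝ} (hε : 0 ≤ ε) (hq : ∀ x, q e φ (P x) ≤ (1 + ε) * q e φ x)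
    (n : ℕ) (h0 : ‖P (e n) - e n‖ ≤ 1 / (200 * K))
    (h1 : ‖P (e (n + 1)) - e (n + 1)‖ ≤ 1 / (200 * K)) (x : E) :
    ‖fac φ s n (P x) - fac φ s n x‖ ≤ 1200 * K ^ 2 * ε * ‖x‖ := by
  have hK := h.hK
  have hs1 : ‖s‖ = 1 := by rcases hs with rfl | rfl <;> simp
  set F := fac φ s n with hF
  set u := pt e s n with hu
  set u' := P u with hu'
  have hPu' : P u' = u' := hP u
  have huu : ‖u' - u‖ ≤ 1 / (160 * K) := by
    have h2 : u' - u = (3 / 4 : 𝕜) • (P (e n) - e n) + (s / 2) • (P (e (n + 1)) - e (n + 1)) := by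
      simp only [hu', hu, pt, map_add, map_smul, smul_sub]
      abel
    rw [h2]
    calc ‖(3 / 4 : 𝕜) • (P (e n) - e n) + (s / 2) • (P (e (n + 1)) - e (n + 1))‖
        ≤ ‖(3 / 4 : 𝕜) • (P (e n) - e n)‖ + ‖(s / 2) • (P (e (n + 1)) - e (n + 1))‖ :=
          norm_add_le _ _
      _ = 3 / 4 * ‖P (e n) - e n‖ + 1 / 2 * ‖P (e (n + 1)) - e (n + 1)‖ := by
          rw [norm_smul, norm_smul, norm_div_two hs1]; simp
      _ ≤ 3 / 4 * (1 / (200 * K)) + 1 / 2 * (1 / (200 * K)) := by gcongr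
      _ = 1 / (160 * K) := by field_simp; norm_num
  have h160 : 1 / (160 * K) ≤ 1 / (80 * K) := by
    apply one_div_le_one_div_of_le <;> linarith
  obtain ⟨hlow, hup, -⟩ := facet_near h s hs n u' (huu.trans h160)
  have hc0 : F u' ≠ 0 := by
    intro h3
    rw [h3, norm_zero] at hlow
    norm_num at hlow
  -- claim A
  have hA : ∀ y, F y = 0 → ‖y‖ ≤ 1 / (160 * K) → ‖F (P y)‖ ≤ ε * ‖F u'‖ := by
    intro y hy hyn
    obtain ⟨ω, hω1, hω2⟩ := exists_phase (F u') (F (P y))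
    have hw : ‖(u' + ω • y) - u‖ ≤ 1 / (80 * K) := by
      have : (u' + ω • y) - u = (u' - u) + ω • y := by abel
      rw [this]
      calc ‖(u' - u) + ω • y‖ ≤ ‖u' - u‖ + ‖ω • y‖ := norm_add_le _ _
        _ = ‖u' - u‖ + ‖y‖ := by rw [norm_smul, hω1, one_mul]
        _ ≤ 1 / (160 * K) + 1 / (160 * K) := by gcongr
        _ = 1 / (80 * K) := by field_simp; norm_num
    obtain ⟨-, -, hqw⟩ := facet_near h s hs n _ hw
    have hFw : F (u' + ω • y) = F u' := by rw [map_add, map_smul, hy, smul_zero, add_zero]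
    rw [← hF, hFw] at hqw
    have hPw : F (P (u' + ω • y)) = F u' + ω * F (P y) := by
      rw [map_add, map_smul, hPu', map_add, map_smul, smul_eq_mul]
    have h4 : ‖F (P (u' + ω • y))‖ ≤ q e φ (P (u' + ω • y)) := le_q h (fac_mem h s hs n) _
    have h5 := hq (u' + ω • y)
    rw [hPw, hω2] at h4
    have h6 : (1 + ε) * q e φ (u' + ω • y) ≤ (1 + ε) * ‖F u'‖ := by gcongr
    linarith
  -- claim B
  have hB : ∀ y, F y = 0 → ‖F (P y)‖ ≤ ε * ‖F u'‖ * (160 * K * ‖y‖) := by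
    intro y hy
    rcases eq_or_ne y 0 with rfl | hy0
    · simp
    have hyp : 0 < ‖y‖ := norm_pos_iff.mpr hy0
    set c : ℝ := 160 * K * ‖y‖ with hc
    have hcp : 0 < c := by positivity
    have hcn : ‖(c : 𝕜)⁻¹‖ = c⁻¹ := by
      rw [norm_inv, RCLike.norm_ofReal, abs_of_pos hcp]
    have h3 := hA ((c : 𝕜)⁻¹ • y) (by rw [map_smul, hy, smul_zero]) (by
      rw [norm_smul, hcn, hc]
      rw [mul_inv, mul_assoc, inv_mul_cancel₀ hyp.ne', mul_one, one_div])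
    rw [map_smul, map_smul, smul_eq_mul, norm_mul, hcn, inv_mul_le_iff₀ hcp] at h3
    linarith
  -- claim C
  set α := F x / F u' with hα
  have hy0 : F (x - α • u') = 0 := by
    rw [map_sub, map_smul, smul_eq_mul, hα, div_mul_cancel₀ _ hc0, sub_self]
  have h3 := hB _ hy0
  have h4 : F (P (x - α • u')) = F (P x) - F x := by
    rw [map_sub, map_smul, hPu', map_sub, map_smul, smul_eq_mul, hα, div_mul_cancel₀ _ hc0]
  rw [h4] at h3
  have h5 : ‖α‖ ≤ 5 / 2 * K * ‖x‖ / (31 / 32) := by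
    rw [hα, norm_div]
    apply div_le_div₀ (by positivity) (fac_le h s hs1.le n x) (by norm_num) hlow
  have h6 : ‖u'‖ ≤ 2 := by
    have h7 : ‖u'‖ ≤ ‖u' - u‖ + ‖u‖ := by simpa using norm_add_le (u' - u) u
    have h8 := pt_norm h s hs n
    have h9 : 1 / (160 * K) ≤ 1 / 160 := by
      apply one_div_le_one_div_of_le <;> linarith
    linarith
  have h7 : ‖x - α • u'‖ ≤ 7 * K * ‖x‖ := by
    calc ‖x - α • u'‖ ≤ ‖x‖ + ‖α • u'‖ := norm_sub_le _ _
      _ = ‖x‖ + ‖α‖ * ‖u'‖ := by rw [norm_smul]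
      _ ≤ ‖x‖ + 5 / 2 * K * ‖x‖ / (31 / 32) * 2 := by gcongr
      _ ≤ 7 * K * ‖x‖ := by
        have h8 := norm_nonneg x
        have h9 : ‖x‖ ≤ K * ‖x‖ := by nlinarith
        have h10 : 5 / 2 * K * ‖x‖ / (31 / 32) * 2 = 160 / 31 * (K * ‖x‖) := by ring
        rw [h10]
        nlinarith
  calc ‖F (P x) - F x‖ ≤ ε * ‖F u'‖ * (160 * K * ‖x - α • u'‖) := h3
    _ ≤ ε * (33 / 32) * (160 * K * (7 * K * ‖x‖)) := by gcongr
    _ = 1155 * (K ^ 2 * ε * ‖x‖) := by ring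
    _ ≤ 1200 * (K ^ 2 * ε * ‖x‖) := by
        have : 0 ≤ K ^ 2 * ε * ‖x‖ := by positivity
        linarith
    _ = 1200 * K ^ 2 * ε * ‖x‖ := by ring

/-! ### Corners -/

/-- If `x` is almost in the new unit ball and `kap m` is almost `1` at `x`, then `x` is close to
the corner `e (m+1)`. -/
lemma corner (h : Sys e φ K) (m : ℕ) {ε η : ℝ} (x : E) (hx : q e φ x ≤ 1 + ε)
    (hk : ‖kap φ m x - 1‖ ≤ η) : ‖x - e (m + 1)‖ ≤ 64 * ε + 66 * η := by
  have hke : kap φ m (e (m + 1)) = 1 := by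
    rw [kap_e h]; simp
  have key : q e φ (x - e (m + 1)) ≤ 32 * ε + 33 * η := by
    apply q_le
    intro g hg
    have hge := hg.2 (m + 1)
    set r := g x - g (e (m + 1)) * kap φ m x with hr
    obtain ⟨ω, hω1, hω2⟩ := exists_phase (kap φ m x) ((1 / 32 : 𝕜) * r)
    set f : E →L[𝕜] 𝕜 := kap φ m + (ω * (1 / 32 : 𝕜)) • (g - g (e (m + 1)) • kap φ m) with hf
    have hfx : ∀ y, f y = kap φ m y + ω * (1 / 32) * (g y - g (e (m + 1)) * kap φ m y) := by
      intro y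
      simp [hf]
    have h32 : ‖(1 / 32 : 𝕜)‖ = 1 / 32 := by simp
    have hfy : ∀ y, ‖f y‖ ≤ ‖kap φ m y‖ + 1 / 32 * (‖g y‖ + ‖g (e (m + 1))‖ * ‖kap φ m y‖) := by
      intro y
      rw [hfx]
      calc ‖kap φ m y + ω * (1 / 32) * (g y - g (e (m + 1)) * kap φ m y)‖
          ≤ ‖kap φ m y‖ + ‖ω * (1 / 32) * (g y - g (e (m + 1)) * kap φ m y)‖ := norm_add_le _ _
        _ = ‖kap φ m y‖ + 1 / 32 * ‖g y - g (e (m + 1)) * kap φ m y‖ := by
          rw [norm_mul, norm_mul, hω1, h32, one_mul]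
        _ ≤ ‖kap φ m y‖ + 1 / 32 * (‖g y‖ + ‖g (e (m + 1)) * kap φ m y‖) := by
          gcongr
          exact norm_sub_le _ _
        _ = _ := by rw [norm_mul]
    have hfG : f ∈ G e φ := by
      constructor
      · intro y hy
        have h1 := hfy y
        have h2 := hg.1 y hy
        have h3 := hy.2.1 m
        have h4 : ‖g (e (m + 1))‖ * ‖kap φ m y‖ ≤ 1 * (15 / 16) := by gcongr
        linarith
      · intro j
        by_cases hj : j = m + 1
        · subst hj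
          rw [hfx, hke, mul_one, sub_self, mul_zero, add_zero, norm_one]
        · have h1 := hfy (e j)
          have h2 := hg.2 j
          have h3 : ‖kap φ m (e j)‖ ≤ 1 / 2 := by
            rw [kap_e h]
            have : ¬ (m + 1 = j) := fun h5 => hj h5.symm
            simp only [this, if_false, zero_add]
            split_ifs <;> simp
          have h4 : ‖g (e (m + 1))‖ * ‖kap φ m (e j)‖ ≤ 1 * (1 / 2) := by gcongr
          linarith
    have h1 := le_q h hfG x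
    rw [hfx, mul_assoc, ← hr, hω2, norm_mul, h32] at h1
    have h2 : 1 - η ≤ ‖kap φ m x‖ := by
      have h3 := norm_sub_norm_le (1 : 𝕜) (kap φ m x)
      rw [norm_one, norm_sub_rev] at h3
      linarith
    have h3 : ‖r‖ ≤ 32 * (ε + η) := by linarith
    have h4 : g (x - e (m + 1)) = r + g (e (m + 1)) * (kap φ m x - 1) := by
      rw [map_sub, hr]; ring
    rw [h4]
    calc ‖r + g (e (m + 1)) * (kap φ m x - 1)‖
        ≤ ‖r‖ + ‖g (e (m + 1)) * (kap φ m x - 1)‖ := norm_add_le _ _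
      _ = ‖r‖ + ‖g (e (m + 1))‖ * ‖kap φ m x - 1‖ := by rw [norm_mul]
      _ ≤ 32 * (ε + η) + 1 * η := by gcongr
      _ = 32 * ε + 33 * η := by ring
  have := norm_le_q h (x - e (m + 1))
  linarith

lemma q_e (e' : ℕ → E) (φ' : ℕ → E →L[𝕜] 𝕜) (m : ℕ) : q e' φ' (e' m) ≤ 1 :=
  q_le fun _ hg => hg.2 m

/-- the propagation step -/
lemma step (h : Sys e φ K) (P : E →L[𝕜] E) (hP : ∀ x, P (P x) = P x) {ε : ℝ} (hε : 0 ≤ ε)
    (hεK : ε * (80000 * K ^ 2) ≤ 1 / (200 * K))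
    (hq : ∀ x, q e φ (P x) ≤ (1 + ε) * q e φ x)
    (n : ℕ) (h0 : ‖P (e n) - e n‖ ≤ 1 / (200 * K))
    (h1 : ‖P (e (n + 1)) - e (n + 1)‖ ≤ 1 / (200 * K)) :
    ‖P (e (n + 2)) - e (n + 2)‖ ≤ 1 / (200 * K) := by
  have hK := h.hK
  have hplus := step_fac h 1 (Or.inl rfl) P hP hε hq n h0 h1 (e (n + 2))
  have hminus := step_fac h (-1) (Or.inr rfl) P hP hε hq n h0 h1 (e (n + 2))
  have he2 := h.he (n + 2)
  have hkey : ∀ y, kap φ (n + 1) y = (1 / 2 : 𝕜) * (fac φ 1 n y - fac φ (-1) n y) := by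
    intro y
    have h2 : fac φ 1 n y = φ n y + kap φ (n + 1) y := by simp [fac]
    have h3 : fac φ (-1) n y = φ n y - kap φ (n + 1) y := by simp [fac]; ring
    rw [h2, h3]; ring
  have hke : kap φ (n + 1) (e (n + 2)) = 1 := by
    rw [kap_e h]; simp
  set η : ℝ := 1200 * K ^ 2 * ε with hη
  have hη0 : 0 ≤ η := by positivity
  have hk : ‖kap φ (n + 1) (P (e (n + 2))) - 1‖ ≤ η := by
    rw [← hke, hkey, hkey]
    have h4 : (1 / 2 : 𝕜) * (fac φ 1 n (P (e (n + 2))) - fac φ (-1) n (P (e (n + 2)))) -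
        (1 / 2 : 𝕜) * (fac φ 1 n (e (n + 2)) - fac φ (-1) n (e (n + 2))) =
        (1 / 2 : 𝕜) * ((fac φ 1 n (P (e (n + 2))) - fac φ 1 n (e (n + 2))) -
          (fac φ (-1) n (P (e (n + 2))) - fac φ (-1) n (e (n + 2)))) := by ring
    rw [h4, norm_mul, norm_half]
    have h5 := norm_sub_le (fac φ 1 n (P (e (n + 2))) - fac φ 1 n (e (n + 2)))
      (fac φ (-1) n (P (e (n + 2))) - fac φ (-1) n (e (n + 2)))
    have h6 : η * ‖e (n + 2)‖ ≤ η * 1 := by gcongr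
    linarith
  have hx : q e φ (P (e (n + 2))) ≤ 1 + ε := by
    have h5 := hq (e (n + 2))
    have h6 : (1 + ε) * q e φ (e (n + 2)) ≤ (1 + ε) * 1 := by
      gcongr
      exact q_e e φ _
    linarith
  have h7 := corner h (n + 1) (P (e (n + 2))) hx hk
  have h8 : 64 * ε + 66 * η ≤ ε * (80000 * K ^ 2) := by
    have h9 : (1 : ℝ) ≤ K ^ 2 := by nlinarith
    have h10 : 64 * ε ≤ 64 * (ε * K ^ 2) := by nlinarith
    have h11 : 0 ≤ ε * K ^ 2 := by positivity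
    rw [hη]
    nlinarith
  exact h7.trans (h8.trans hεK)

/-- No finite rank projection of norm at most `1+ε` nearly fixes `e 0` and `e 1`. -/
lemma no_proj (h : Sys e φ K) (P : E →L[𝕜] E) (hP : ∀ x, P (P x) = P x)
    (hfin : FiniteDimensional 𝕜 (LinearMap.range P.toLinearMap)) {ε : ℝ} (hε : 0 ≤ ε)
    (hεK : ε * (80000 * K ^ 2) ≤ 1 / (200 * K))
    (hq : ∀ x, q e φ (P x) ≤ (1 + ε) * q e φ x)
    (h0 : ‖P (e 0) - e 0‖ ≤ 1 / (200 * K))
    (h1 : ‖P (e 1) - e 1‖ ≤ 1 / (200 * K)) : False := by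
  have hK := h.hK
  have hall : ∀ n, ‖P (e n) - e n‖ ≤ 1 / (200 * K) ∧
      ‖P (e (n + 1)) - e (n + 1)‖ ≤ 1 / (200 * K) := by
    intro n
    induction n with
    | zero => exact ⟨h0, h1⟩
    | succ n ih => exact ⟨ih.2, step h P hP hε hεK hq n ih.1 ih.2⟩
  let F := LinearMap.range P.toLinearMap
  have : FiniteDimensional 𝕜 F := hfin
  have : ProperSpace F := FiniteDimensional.proper_rclike 𝕜 F
  let y : ℕ → F := fun n => ⟨P (e n), ⟨e n, rfl⟩⟩
  have hyb : Bornology.IsBounded (Set.range y) := by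
    rw [isBounded_iff_forall_norm_le]
    refine ⟨2, ?_⟩
    rintro _ ⟨n, rfl⟩
    have h2 : ‖y n‖ = ‖P (e n)‖ := rfl
    rw [h2]
    have h3 : ‖P (e n)‖ ≤ ‖P (e n) - e n‖ + ‖e n‖ := by simpa using norm_add_le (P (e n) - e n) (e n)
    have h4 := h.he n
    have h5 := (hall n).1
    have h6 : 1 / (200 * K) ≤ 1 / 200 := by
      apply one_div_le_one_div_of_le <;> linarith
    linarith
  obtain ⟨a, -, ψ, hψ, hlim⟩ := tendsto_subseq_of_bounded hyb (fun n => Set.mem_range_self n)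
  have hcauchy := hlim.cauchySeq
  rw [Metric.cauchySeq_iff'] at hcauchy
  obtain ⟨N, hN⟩ := hcauchy (1 / (200 * K)) (by positivity)
  have h2 := hN (N + 1) (by omega)
  rw [dist_eq_norm] at h2
  have h3 : ‖P (e (ψ (N + 1))) - P (e (ψ N))‖ < 1 / (200 * K) := h2
  have hne : ψ (N + 1) ≠ ψ N := (hψ (Nat.lt_succ_self N)).ne'
  have h4 : φ (ψ (N + 1)) (e (ψ (N + 1)) - e (ψ N)) = 1 := by
    rw [map_sub, h.ort, h.ort]
    simp [hne]
  have h5 := h.hφ (ψ (N + 1)) (e (ψ (N + 1)) - e (ψ N))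
  rw [h4, norm_one] at h5
  have h6 : ‖e (ψ (N + 1)) - e (ψ N)‖ ≤ 3 * (1 / (200 * K)) := by
    have h7 : e (ψ (N + 1)) - e (ψ N) = -(P (e (ψ (N + 1))) - e (ψ (N + 1))) +
        (P (e (ψ (N + 1))) - P (e (ψ N))) + (P (e (ψ N)) - e (ψ N)) := by abel
    rw [h7]
    have h8 := (hall (ψ (N + 1))).1
    have h9 := (hall (ψ N)).1
    calc _ ≤ ‖-(P (e (ψ (N + 1))) - e (ψ (N + 1))) + (P (e (ψ (N + 1))) - P (e (ψ N)))‖ +
          ‖P (e (ψ N)) - e (ψ N)‖ := norm_add_le _ _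
      _ ≤ ‖-(P (e (ψ (N + 1))) - e (ψ (N + 1)))‖ + ‖P (e (ψ (N + 1))) - P (e (ψ N))‖ +
          ‖P (e (ψ N)) - e (ψ N)‖ := by gcongr; exact norm_add_le _ _
      _ ≤ _ := by rw [norm_neg]; linarith
  have h7 : K * ‖e (ψ (N + 1)) - e (ψ N)‖ ≤ K * (3 * (1 / (200 * K))) := by gcongr
  have h8 : K * (3 * (1 / (200 * K))) = 3 / 200 := by field_simp
  linarith

/-! ### From a Schauder basis to a bounded biorthogonal system -/

lemma exists_sys [CompleteSpace E] (b : SchauderBasis 𝕜 E) :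
    ∃ (e : ℕ → E) (φ : ℕ → E →L[𝕜] 𝕜) (K : ℝ), Sys e φ K := by
  obtain ⟨C, hC⟩ := b.exists_norm_proj_le
  have hb0 : ∀ n, ‖b n‖ ≠ 0 := by
    intro n h0
    have h1 := b.ortho n n
    rw [norm_eq_zero] at h0
    rw [h0, map_zero] at h1
    simp at h1
  have hb0' : ∀ n, (‖b n‖ : 𝕜) ≠ 0 := fun n => by
    simpa using hb0 n
  refine ⟨fun n => (‖b n‖ : 𝕜)⁻¹ • b n, fun n => (‖b n‖ : 𝕜) • b.coord n, max 1 (2 * C),
    le_max_left _ _, ?_, ?_, ?_⟩
  · intro n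
    rw [norm_smul, norm_inv, RCLike.norm_ofReal, abs_norm, inv_mul_cancel₀ (hb0 n)]
  · intro n x
    have h1 : b.coord n x • b n = b.proj (n + 1) x - b.proj n x := by
      rw [SchauderBasis.proj_apply, SchauderBasis.proj_apply, Finset.sum_range_succ]
      simp
    have h2 : ‖((‖b n‖ : 𝕜) • b.coord n) x‖ = ‖b.coord n x • b n‖ := by
      rw [norm_smul]
      simp only [FunLike.coe_smul, Pi.smul_apply, smul_eq_mul, norm_mul, RCLike.norm_ofReal,
        abs_norm]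
      ring
    rw [h2, h1]
    calc ‖b.proj (n + 1) x - b.proj n x‖ ≤ ‖b.proj (n + 1) x‖ + ‖b.proj n x‖ := norm_sub_le _ _
      _ ≤ C * ‖x‖ + C * ‖x‖ := by
        gcongr
        · exact (b.proj (n + 1)).le_of_opNorm_le (hC _) x
        · exact (b.proj n).le_of_opNorm_le (hC _) x
      _ = 2 * C * ‖x‖ := by ring
      _ ≤ max 1 (2 * C) * ‖x‖ := by
        gcongr
        exact le_max_right _ _
  · intro i j
    have h1 := b.ortho i j
    simp only [FunLike.coe_smul, Pi.smul_apply, map_smul, smul_eq_mul, h1, Pi.single_apply]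
    by_cases hij : i = j
    · subst hij
      simp [hb0' i]
    · simp [hij]

end Core

end Pool.Agent.H.MP_317a58_an.Renorm
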